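import Pool.Agent.Run7.h520.LW.I

/-!
# Piece CLO: closure theory
-/

set_option autoImplicit false
set_option linter.all false

namespace Run7.h576.LW
open Classical Run7.h520.LW

section

variable {V : Type} [DecidableEq V] {G : Str V} {Z : Set V} {A B C S T H : Finset V}

theorem union_sub (hA : ↑A ⊆ Z) (hB : ↑B ⊆ Z) : ↑(A ∪ B) ⊆ Z := by
  intro x hx
  rw [Finset.mem_coe, Finset.mem_union] at hx
  rcases hx with h | h
  · exact hA h
  · exact hB h

theorem sub_mod (hs : S_SMK) (h1 : G.C1 Z) (hA : G.PC A Z) (hB : G.PC B Z) :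
    G.dl (A ∪ B) + G.dl (A ∩ B) ≤ G.dl A + G.dl B := by
  have h := hs (∅ : Finset (V × V)) h1 hA hB (Finset.empty_subset _) (by simp) (by simp)
  have e1 : 0 ≤ ∑ p ∈ G.nic A B, a p.2.1 := Finset.sum_nonneg fun p _ => (a_pos _).le
  have e2 : 0 ≤ ∑ e ∈ G.ned A B \ ∅, (w 0 - ∑ j ∈ G.lv A B e, q (j + 1)) :=
    Finset.sum_nonneg fun e _ => sub_nonneg.2 (w_levels' _).le
  rw [Finset.sum_empty] at h
  linarith

theorem hull_le (hh : S_HULL) (h1 : G.C1 Z) (hC : G.IsP S H Z)
    (hl : ∀ l : ℕ × List V, (∀ x ∈ l.2, x ∈ Z) → (∃ x ∈ l.2, x ∉ S) →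
      (G.pts l S).card ≤ 2 * N l.1) : G.dl H ≤ G.dl S := by
  obtain ⟨X, hX, hd, _⟩ := hh.hull h1 hC.1 hC.2.1 hl
  rw [hC.unique hX]
  rcases hd with rfl | hd
  · exact le_rfl
  · exact hd.le

/-- the union of two P-closed sets and its P-closure -/
theorem union_le (hs : S_SMK) (hh : S_HULL) (h : G.Amb Z) (hA : G.PC A Z) (hB : G.PC B Z)
    (hH : G.IsP (A ∪ B) H Z) : G.dl H + G.dl (A ∩ B) ≤ G.dl A + G.dl B := by
  have h1 := sub_mod hs h.c1 hA hB
  have h2 : G.dl H ≤ G.dl (A ∪ B) := by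
    refine hull_le hh h.c1 hH fun l hl hx => ?_
    obtain ⟨x, hx, hxn⟩ := hx
    rw [Finset.mem_union, not_or] at hxn
    have a1 := hA.pts_lt hl ⟨x, hx, hxn.1⟩
    have a2 := hB.pts_lt hl ⟨x, hx, hxn.2⟩
    have a3 : (G.pts l (A ∪ B)).card ≤ (G.pts l A).card + (G.pts l B).card := by
      rw [Str.pts_union]
      exact Finset.card_union_le _ _
    omega
  linarith

theorem cl_trans (hs : S_SMK) (hh : S_HULL) (h : G.Amb Z) (hA : G.Cl A ↑B) (hB : G.Cl B Z) :
    G.Cl A Z := by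
  refine ⟨hA.1.trans hB.1, fun J hJ hAJ => ?_⟩
  obtain ⟨H, hH⟩ := Str.exists_isP' h (union_sub hJ.sub hB.1.sub)
  have hu := union_le hs hh h hJ hB.1 hH
  have hBH : B ⊆ H := Finset.subset_union_right.trans hH.2.1
  have hJB : G.PC (J ∩ B) ↑B := (hJ.inter hB.1).mono hB.1.sub
    (Finset.coe_subset.2 Finset.inter_subset_right)
  have hAJB : A ⊆ J ∩ B := Finset.subset_inter hAJ.1 (Finset.coe_subset.1 hA.1.sub)
  have h1 := hA.le hJB hAJB
  have h2 := hB.le hH.1 hBH
  by_cases hc : J ⊆ B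
  · have e : J ∩ B = J := Finset.inter_eq_left.2 hc
    rw [e] at hJB
    exact hA.2 J hJB hAJ
  · have hlt : G.dl B < G.dl H := hB.2 H hH.1 ⟨hBH, fun hHB => hc
      ((Finset.subset_union_left.trans hH.2.1).trans hHB)⟩
    linarith

theorem cl_inter (hs : S_SMK) (hh : S_HULL) (h : G.Amb Z) (hA : G.Cl A Z) (hB : G.Cl B Z) :
    G.Cl (A ∩ B) Z := by
  refine cl_trans hs hh h (B := A) ?_ hA
  refine ⟨(hA.1.inter hB.1).mono hA.1.sub (Finset.coe_subset.2 Finset.inter_subset_left),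
    fun J hJ hlt => ?_⟩
  have hJA : J ⊆ A := Finset.coe_subset.1 hJ.sub
  have hJZ : G.PC J Z := hJ.trans hA.1
  obtain ⟨H, hH⟩ := Str.exists_isP' h (union_sub hJZ.sub hB.1.sub)
  have hu := union_le hs hh h hJZ hB.1 hH
  have hBH : B ⊆ H := Finset.subset_union_right.trans hH.2.1
  have hnJB : ¬ J ⊆ B := fun hc => hlt.2 (Finset.subset_inter hJA hc)
  have h2 : G.dl B < G.dl H := hB.2 H hH.1 ⟨hBH, fun hHB => hnJB
      ((Finset.subset_union_left.trans hH.2.1).trans hHB)⟩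
  have e : J ∩ B = A ∩ B := Finset.Subset.antisymm
    (Finset.inter_subset_inter_right hJA)
    (Finset.subset_inter hlt.1 Finset.inter_subset_right)
  rw [e] at hu
  linarith

theorem exists_isC (hs : S_SMK) (hh : S_HULL) (h : G.Amb Z) (hS : ↑S ⊆ Z) :
    ∃ C, G.IsC S C Z := by
  obtain ⟨C0, hS0, hC0⟩ := h.fin S hS
  obtain ⟨C, hC, hmin⟩ := Finset.exists_min_image
    (C0.powerset.filter fun H => G.Cl H Z ∧ S ⊆ H) Finset.card
    ⟨C0, by simp only [Finset.mem_filter, Finset.mem_powerset]; exact ⟨Finset.Subset.refl _, hC0, hS0⟩⟩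
  simp only [Finset.mem_filter, Finset.mem_powerset] at hC hmin
  refine ⟨C, hC.2.1, hC.2.2, fun H' h' hS' => ?_⟩
  have := hmin (C ∩ H') ⟨Finset.inter_subset_left.trans hC.1, cl_inter hs hh h hC.2.1 h',
    Finset.subset_inter hC.2.2 hS'⟩
  have e : C ∩ H' = C := Finset.eq_of_subset_of_card_le Finset.inter_subset_left this
  rw [← e]
  exact Finset.inter_subset_right

theorem isC_le0 (hs : S_SMK) (hh : S_HULL) (h : G.Amb Z) (hS : G.PC S Z) (hC : G.IsC S C Z) :
    G.dl C ≤ G.dl S := by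
  obtain ⟨H0, h0, hmin⟩ := Finset.exists_min_image
    (C.powerset.filter fun H => G.PC H Z ∧ S ⊆ H) G.dl
    ⟨C, by simp only [Finset.mem_filter, Finset.mem_powerset]; exact ⟨Finset.Subset.refl _, hC.1.1, hC.2.1⟩⟩
  simp only [Finset.mem_filter, Finset.mem_powerset] at h0 hmin
  obtain ⟨H, h1, hmax⟩ := Finset.exists_max_image
    (C.powerset.filter fun H => (G.PC H Z ∧ S ⊆ H) ∧ G.dl H = G.dl H0) Finset.card
    ⟨H0, by rw [Finset.mem_filter, Finset.mem_powerset]; exact ⟨h0.1, h0.2, rfl⟩⟩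
  simp only [Finset.mem_filter, Finset.mem_powerset] at h1 hmax
  obtain ⟨hHC, ⟨hHpc, hSH⟩, hHd⟩ := h1
  have hcl : G.Cl H ↑C := by
    refine ⟨hHpc.mono hC.1.1.sub (Finset.coe_subset.2 hHC), fun B hB hlt => ?_⟩
    have hBC : B ⊆ C := Finset.coe_subset.1 hB.sub
    have hBZ := hB.trans hC.1.1
    have a := hmin B ⟨hBC, hBZ, hSH.trans hlt.1⟩
    rcases lt_or_eq_of_le (hHd.le.trans a) with hl | he
    · exact hl
    · exfalso
      have b := hmax B ⟨hBC, ⟨hBZ, hSH.trans hlt.1⟩, by rw [← he]; exact hHd⟩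
      have c := Finset.card_lt_card hlt
      omega
  have hclZ := cl_trans hs hh h hcl hC.1
  have e : C = H := Finset.Subset.antisymm (hC.2.2 H hclZ hSH) hHC
  have b := hmin S ⟨hC.2.1, hS, Finset.Subset.refl _⟩
  rw [e, hHd]
  exact b

/-- the P-closed supersets bound the predimension of the closure -/
theorem isC_le (hs : S_SMK) (hh : S_HULL) (h : G.Amb Z) (hT : G.PC T Z) (hST : S ⊆ T)
    (hC : G.IsC S C Z) : G.dl C ≤ G.dl T := by
  obtain ⟨K, hK⟩ := exists_isC hs hh h hT.sub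
  exact (hC.sub hK.1 (hST.trans hK.2.1)).trans (isC_le0 hs hh h hT hK)

theorem isC_union_le {C' H' : Finset V} (hs : S_SMK) (hh : S_HULL) (h : G.Amb Z)
    (hC : G.IsC S C Z) (hC' : G.IsC T C' Z) (hH : G.IsC (S ∪ T) H' Z) :
    G.dl H' + G.dl (C ∩ C') ≤ G.dl C + G.dl C' := by
  obtain ⟨J, hJ⟩ := Str.exists_isP' h (union_sub hC.1.1.sub hC'.1.1.sub)
  have h1 := union_le hs hh h hC.1.1 hC'.1.1 hJ
  have h2 := isC_le hs hh h hJ.1 ((Finset.union_subset_union hC.2.1 hC'.2.1).trans hJ.2.1) hH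
  linarith

theorem insert_le (hs : S_SMK) (hh : S_HULL) (h : G.Amb Z) {v : V} (hv : v ∈ Z)
    (hC : G.IsC S C Z) (hH : G.IsC (insert v S) H Z) : G.dl H ≤ G.dl C + wt := by
  have hw := wt_ge
  by_cases hvC : v ∈ C
  · have := hH.sub hC.1 (Finset.insert_subset hvC hC.2.1)
    linarith
  · have hCZ : ↑C ⊆ Z := hC.1.1.sub
    have hTZ : ↑(insert v C) ⊆ Z := by
      intro x hx
      rw [Finset.mem_coe, Finset.mem_insert] at hx
      rcases hx with rfl | hx
      · exact hv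
      · exact hCZ hx
    obtain ⟨J, hJ⟩ := Str.exists_isP' h hTZ
    have h1 : G.dl J ≤ G.dl (insert v C) := by
      refine hull_le hh h.c1 hJ fun l hl hx => ?_
      obtain ⟨x, hx, hxn⟩ := hx
      rw [Finset.mem_insert, not_or] at hxn
      have a1 := hC.1.1.pts_lt hl ⟨x, hx, hxn.2⟩
      have a2 : (G.pts l (insert v C)).card ≤ (G.pts l C).card + 1 := by
        have : G.pts l (insert v C) ⊆ insert v (G.pts l C) := by
          intro y hy
          rw [Str.mem_pts, Finset.mem_insert] at hy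
          rw [Finset.mem_insert, Str.mem_pts]
          rcases hy with ⟨rfl | hy, ho⟩
          · exact Or.inl rfl
          · exact Or.inr ⟨hy, ho⟩
        exact (Finset.card_le_card this).trans (Finset.card_insert_le _ _)
      omega
    have h2 : G.dl (insert v C) ≤ G.dl C + wt := by
      refine hh.ins h.c1 hCZ hvC (fun j => hC.1.1.g2 v hv hvC j) fun l hvl hl => ?_
      exact (hC.1.1.pts_lt (fun x hx => hTZ (Finset.mem_coe.2 (hl x hx))) ⟨v, hvl, hvC⟩).le
    have h3 := isC_le hs hh h hJ.1 ((Finset.insert_subset_insert v hC.2.1).trans hJ.2.1) hH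
    linarith

theorem cl_empty (hc : S_CALC) (h : G.Cls Z) : G.Cl ∅ Z := by
  refine ⟨Str.PC.empty Z, fun B hB hlt => ?_⟩
  rw [Str.dl_empty]
  have h1 := h.c2 B hB
  have h2 : 0 ≤ f B.card := by
    rw [← f_zero]
    exact f_mono (Nat.zero_le _)
  rcases lt_or_eq_of_le (h2.trans h1) with h | h
  · exact h
  · exfalso
    have h3 := hc.down G B.card ∅ B hlt (g_lt _) (by rw [Str.dl_empty]; exact h.ge)
    rw [Str.dl_empty] at h3
    have h4 := w_pos B.card
    linarith

theorem dl_isC_le (hc : S_CALC) (hs : S_SMK) (hh : S_HULL) (h : G.Amb Z) (hk : G.Cls Z) :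
    ∀ (S C : Finset V), ↑S ⊆ Z → G.IsC S C Z → G.dl C ≤ wt * S.card := by
  intro S
  induction S using Finset.induction_on with
  | empty =>
    intro C _ hC
    have e : C = ∅ := Finset.subset_empty.1 (hC.2.2 ∅ (cl_empty hc hk) (Finset.Subset.refl _))
    rw [e, Str.dl_empty]
    simp
  | insert v S hv ih =>
    intro C hS hC
    have hSZ : ↑S ⊆ Z := fun x hx => hS (by
      rw [Finset.mem_coe] at hx ⊢
      exact Finset.mem_insert_of_mem hx)
    have hvZ : v ∈ Z := hS (by rw [Finset.mem_coe]; exact Finset.mem_insert_self _ _)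
    obtain ⟨C', hC'⟩ := exists_isC hs hh h hSZ
    have h1 := ih C' hSZ hC'
    have h2 := insert_le hs hh h hvZ hC' hC
    rw [Finset.card_insert_of_notMem hv]
    push_cast
    linarith

end

/-- **CLO** -/
theorem CLO (hc : S_CALC) (hs : S_SMK) (hh : S_HULL) : S_CLO where
  sub_mod := fun h1 hA hB => sub_mod hs h1 hA hB
  union_le := fun h hA hB hH => union_le hs hh h hA hB hH
  trans := fun h hA hB => cl_trans hs hh h hA hB
  inter := fun h hA hB => cl_inter hs hh h hA hB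
  exists_isC := fun h hS => exists_isC hs hh h hS
  isC_le := fun h hT hST hC => isC_le hs hh h hT hST hC
  isC_union_le := fun h hC hC' hH => isC_union_le hs hh h hC hC' hH
  insert_le := fun h hv hC hH => insert_le hs hh h hv hC hH
  empty := fun h => cl_empty hc h
  card := by
    intro n
    obtain ⟨B, hB⟩ := f_unb (n + 1)
    refine ⟨B, ?_⟩
    intro V G Z S C h hk hn hC
    by_contra hcon
    have h1 : f B ≤ f C.card := f_mono (by omega)
    have h2 := hk.c2 C hC.1.1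
    have hSZ : ↑S ⊆ Z := fun x hx => hC.1.1.sub (Finset.mem_coe.2 (hC.2.1 (Finset.mem_coe.1 hx)))
    have h3 := dl_isC_le hc hs hh h hk S C hSZ hC
    have h4 := wt_le
    have h5 := wt_ge
    have h6 : (S.card : ℝ) ≤ n := by exact_mod_cast hn
    have h7 : wt * (S.card : ℝ) ≤ 1 * n :=
      mul_le_mul h4 h6 (by positivity) (by norm_num)
    linarith

end Run7.h576.LW
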